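import Mathlib
import Pool.Agent.H68.Frac
import Pool.Agent.H68.Vanish

/-!
# Genus of the A-polynomial curves of twist knots: definitions of the statement
-/

open Polynomial

open scoped Polynomial.Bivariate

namespace Pool.H66.MV.TwistGenus

open Pool.Agent.H68

/-- The first generator of the free group on `a`, `b`. -/
def ga : FreeGroup (Fin 2) := FreeGroup.of 0

/-- The second generator of the free group on `a`, `b`. -/
def gb : FreeGroup (Fin 2) := FreeGroup.of 1

/-- The word `v = a⁻¹ b a b⁻¹`. -/
def vWord : FreeGroup (Fin 2) := ga⁻¹ * gb * ga * gb⁻¹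

/-- The word `v* = b⁻¹ a b a⁻¹`, i.e. `v` read backwards. -/
def vBack : FreeGroup (Fin 2) := gb⁻¹ * ga * gb * ga⁻¹

/-- The defining relator `(a v^p) (v^p b)⁻¹`. -/
def twistRel (p : ℤ) : Set (FreeGroup (Fin 2)) := {ga * vWord ^ p * (vWord ^ p * gb)⁻¹}

/-- The group of the twist knot `K_p`, presented as `⟨a, b | a v^p = v^p b⟩`. -/
abbrev TwistGroup (p : ℤ) : Type := PresentedGroup (twistRel p)

/-- The meridian `a`. -/
def meridian (p : ℤ) : TwistGroup p := PresentedGroup.of 0

/-- The longitude `v*^(-p) v^(-p)` (null-homologous, and commuting with the meridian). -/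
def longitude (p : ℤ) : TwistGroup p := PresentedGroup.mk _ (vBack ^ (-p) * vWord ^ (-p))

/-- The matrix `g` is upper triangular, with upper left entry (an eigenvalue) `x`. -/
def IsUpper (g : Matrix.SpecialLinearGroup (Fin 2) ℂ) (x : ℂ) : Prop := g 1 0 = 0 ∧ g 0 0 = x

/-- `(L, M)` is a pair of eigenvalues of `ρ(longitude)`, `ρ(meridian)` for a representation
`ρ` of the knot group in `SL₂(ℂ)` that is upper triangular on the peripheral subgroup. -/
def IsEigenvaluePair (p : ℤ) (L M : ℂ) : Prop :=
  ∃ ρ : TwistGroup p →* Matrix.SpecialLinearGroup (Fin 2) ℂ,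
    IsUpper (ρ (longitude p)) L ∧ IsUpper (ρ (meridian p)) M

/-- An integer polynomial in two variables, seen over `ℂ`. -/
noncomputable def toC (P : ℤ[X][Y]) : ℂ[X][Y] := P.map (mapRingHom (Int.castRingHom ℂ))

/-- `P ∈ ℤ[M][L]` (`M` is the inner variable `X`, `L` is the outer variable `Y`) is an A-polynomial
of `K_p`: its integer coefficients are coprime, and `(L - 1) P` generates the ideal of all
complex polynomials vanishing on the set of eigenvalue pairs, i.e. it is a (square-free)
defining polynomial of the closure of that set. -/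
structure IsAPolynomial (p : ℤ) (P : ℤ[X][Y]) : Prop where
  coprime : ∀ d : ℤ, C (C d) ∣ P → IsUnit d
  defining : ∀ F : ℂ[X][Y],
    (∀ L M : ℂ, IsEigenvaluePair p L M → F.evalEval M L = 0) ↔ (Y - 1) * toC P ∣ F

/-- The function field `K / ℂ` has genus `g`: the space of everywhere regular differentials of
`K / ℂ` is finite-dimensional, of dimension `g`. -/
def HasGenus (K : Type) [CommRing K] [Algebra ℂ K] (g : ℤ) : Prop :=
  Module.Finite ℂ (regularDifferentials K) ∧ (Module.finrank ℂ (regularDifferentials K) : ℤ) = g

/-- The fraction field of the coordinate ring `R` has genus `g`. -/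
def FracHasGenus (R : Type) [CommRing R] [Algebra ℂ R] (g : ℤ) : Prop :=
  HasGenus (FractionRing R) g

/-- The plane curve `A(L, m) = 0` has (geometric) genus `g`: the genus of its function field, the
fraction field of the coordinate ring `ℂ[m][L] / (A)`. -/
def CurveHasGenus (A : ℂ[X][Y]) (g : ℤ) : Prop := FracHasGenus (AdjoinRoot A) g

/-- The polynomial `A(L, M²)`, for `A(L, m)`. -/
noncomputable def squareM (A : ℤ[X][Y]) : ℤ[X][Y] := A.map (expand ℤ 2).toRingHom

/-- The value of the genus in the question. -/
def genusFormula (p : ℤ) : ℤ := if 0 < p then 2 * p - 2 else 2 * |p| - 1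

end Pool.H66.MV.TwistGenus
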