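import Mathlib
import Pool.Agent.H68.Frac
import Pool.Agent.H68.Vanish
import Pool.Agent.H66.MV.TwistGenusDefs

/-!
# Genus of the A-polynomial curves of twist knots: the proof
-/

open Polynomial

open scoped Polynomial.Bivariate

namespace Pool.H66.MV.TwistGenus

open Pool.Agent.H68

theorem comm_aux {G : Type*} [Group G] {a b v w : G} (hv : v = a⁻¹ * b * a * b⁻¹)
    (hw : w = b⁻¹ * a * b * a⁻¹) (p : ℤ) (h : a * v ^ p = v ^ p * b) :
    Commute a (w ^ (-p) * v ^ (-p)) := by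
  have h1 : w = (b⁻¹ * a) * v⁻¹ * (b⁻¹ * a)⁻¹ := by rw [hv, hw]; group
  have h2 : w ^ p = (b⁻¹ * a) * (v ^ p)⁻¹ * (b⁻¹ * a)⁻¹ := by
    rw [h1, conj_zpow, inv_zpow]
  have hvc : (v ^ p)⁻¹ * v = v * (v ^ p)⁻¹ := by
    rw [← zpow_neg, ← zpow_add_one, add_comm, zpow_one_add]
  have e1 : a⁻¹ * b * a = v * b := by rw [hv]; group
  have e2 : a * v = b * a * b⁻¹ := by rw [hv]; group
  have e3 : b⁻¹ * (v ^ p)⁻¹ = (v ^ p)⁻¹ * a⁻¹ := by
    rw [← mul_inv_rev, ← mul_inv_rev, h]
  rw [zpow_neg, zpow_neg]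
  set V := v ^ p with hV
  have h3 : b * w ^ p = w ^ p * a := by
    calc b * w ^ p = a * (V⁻¹ * a⁻¹) * b := by rw [h2]; group
      _ = a * (b⁻¹ * V⁻¹) * b := by rw [e3]
      _ = b⁻¹ * (b * a * b⁻¹) * V⁻¹ * b := by group
      _ = b⁻¹ * (a * v) * V⁻¹ * b := by rw [e2]
      _ = b⁻¹ * a * (v * V⁻¹) * b := by group
      _ = b⁻¹ * a * (V⁻¹ * v) * b := by rw [hvc]
      _ = b⁻¹ * a * V⁻¹ * (v * b) := by group
      _ = b⁻¹ * a * V⁻¹ * (a⁻¹ * b * a) := by rw [e1]
      _ = w ^ p * a := by rw [h2]; group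
  have h4 : Commute a (V * w ^ p) := by
    change a * (V * w ^ p) = V * w ^ p * a
    rw [← mul_assoc, h, mul_assoc, h3, ← mul_assoc]
  have h5 := h4.inv_right
  rwa [mul_inv_rev] at h5

theorem relation (p : ℤ) : (meridian p) * (PresentedGroup.mk _ vWord) ^ p =
    (PresentedGroup.mk _ vWord : TwistGroup p) ^ p * PresentedGroup.mk _ gb := by
  have h : (PresentedGroup.mk _ (ga * vWord ^ p * (vWord ^ p * gb)⁻¹) : TwistGroup p) = 1 :=
    PresentedGroup.one_of_mem rfl
  rw [map_mul, map_inv, mul_inv_eq_one, map_mul, map_mul, map_zpow] at h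
  exact h

/-- The longitude commutes with the meridian. -/
theorem meridian_longitude_comm (p : ℤ) : Commute (meridian p) (longitude p) := by
  have h := comm_aux (G := TwistGroup p) (a := meridian p) (b := PresentedGroup.mk _ gb)
    (v := PresentedGroup.mk _ vWord) (w := PresentedGroup.mk _ vBack) rfl rfl p (relation p)
  exact h

theorem isEigenvaluePair_iff (p : ℤ) (L M : ℂ) : IsEigenvaluePair p L M ↔ EigenPair p L M := by
  constructor
  · rintro ⟨ρ, ⟨h2, h3⟩, ⟨h1, h4⟩⟩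
    let π := PresentedGroup.mk (twistRel p)
    let a := ρ (π ga)
    let b := ρ (π gb)
    have hv : vword a b = ρ (π vWord) := by
      have hπ : π vWord = (π ga)⁻¹ * π gb * π ga * (π gb)⁻¹ := rfl
      rw [hπ, map_mul, map_mul, map_mul, map_inv, map_inv]
      rfl
    have hvr : vrev a b = ρ (π vBack) := by
      have hπ : π vBack = (π gb)⁻¹ * π ga * π gb * (π ga)⁻¹ := rfl
      rw [hπ, map_mul, map_mul, map_mul, map_inv, map_inv]
      rfl
    have hrel : π (ga * vWord ^ p * (vWord ^ p * gb)⁻¹) = 1 :=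
      PresentedGroup.one_of_mem rfl
    have hrel' : a * vword a b ^ p = vword a b ^ p * b := by
      have h5 := congrArg ρ hrel
      rw [hv]
      simp only [map_mul, map_inv, map_zpow, map_one] at h5
      exact mul_inv_eq_one.mp h5
    have hlong : Pool.Agent.H68.longitude p a b = ρ (longitude p) := by
      unfold Pool.Agent.H68.longitude longitude
      rw [hv, hvr, map_mul, map_zpow, map_zpow, map_mul, map_zpow, map_zpow]
    exact ⟨a, b, hrel', h1, by rw [hlong]; exact h2, by rw [hlong]; exact h3.symm, h4.symm⟩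
  · rintro ⟨a, b, hrel, h1, h2, h3, h4⟩
    let φ : Fin 2 → Matrix.SpecialLinearGroup (Fin 2) ℂ := ![a, b]
    have hga : FreeGroup.lift φ ga = a := by simp [ga, φ]
    have hgb : FreeGroup.lift φ gb = b := by simp [gb, φ]
    have hv : FreeGroup.lift φ vWord = vword a b := by
      simp only [vWord, vword, map_mul, map_inv, hga, hgb]
    have hvr : FreeGroup.lift φ vBack = vrev a b := by
      simp only [vBack, vrev, map_mul, map_inv, hga, hgb]
    have hφ : ∀ r ∈ twistRel p, FreeGroup.lift φ r = 1 := by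
      intro r hr
      rw [twistRel, Set.mem_singleton_iff] at hr
      rw [hr]
      simp only [map_mul, map_inv, map_zpow, hga, hgb, hv]
      rw [mul_inv_eq_one]; exact hrel
    have hm : PresentedGroup.toGroup hφ (meridian p) = a := by
      unfold meridian
      rw [PresentedGroup.toGroup.of]
      rfl
    have hl : PresentedGroup.toGroup hφ (longitude p) = Pool.Agent.H68.longitude p a b := by
      have : PresentedGroup.toGroup hφ (longitude p) =
        FreeGroup.lift φ (vBack ^ (-p) * vWord ^ (-p)) := rfl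
      rw [this, map_mul, map_zpow, map_zpow, hv, hvr]
      rfl
    refine ⟨PresentedGroup.toGroup hφ, ⟨?_, ?_⟩, ⟨?_, ?_⟩⟩
    · rw [hl]; exact h2
    · rw [hl]; exact h3.symm
    · rw [hm]; exact h1
    · rw [hm]; exact h4.symm

theorem toC_BB (q : ℤ[X]) (p : ℤ) : toC (BB q p) = BB (q.map (Int.castRingHom ℂ)) p := by
  unfold toC
  rw [map_BB]
  rfl

theorem toC_injective : Function.Injective toC :=
  Polynomial.map_injective _ (Polynomial.map_injective _ Int.cast_injective)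

theorem vanish {p : ℤ} (hp : p ≠ 0) (F : ℂ[X][Y]) :
    (∀ L M : ℂ, IsEigenvaluePair p L M → F.evalEval M L = 0) ↔
      (Y - 1) * toC (BB (X ^ 2 : ℤ[X]) p) ∣ F := by
  rw [toC_BB, Polynomial.map_pow, map_X, ← vanish_iff hp]
  simp only [isEigenvaluePair_iff]

theorem BB_coeff {p : ℤ} (hp : p ≠ 0) : ∃ j : ℕ,
    ((BB (X ^ 2 : ℤ[X]) p).coeff (degD p + 1)).coeff j = 1 := by
  obtain ⟨-, j, hj, -⟩ := BB_deg (X ^ 2 : ℤ[X]) hp
  refine ⟨2 * j, ?_⟩
  rw [hj, ← pow_mul, coeff_X_pow_self]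

theorem isAPolynomial_BB {p : ℤ} (hp : p ≠ 0) : IsAPolynomial p (BB (X ^ 2 : ℤ[X]) p) := by
  refine ⟨?_, vanish hp⟩
  intro d hd
  obtain ⟨j, hj⟩ := BB_coeff hp
  rw [C_dvd_iff_dvd_coeff] at hd
  have h := hd (degD p + 1)
  rw [C_dvd_iff_dvd_coeff] at h
  have h2 := h j
  rw [hj] at h2
  exact isUnit_of_dvd_one h2

theorem eq_of_isAPolynomial {p : ℤ} (hp : p ≠ 0) {P : ℤ[X][Y]} (hP : IsAPolynomial p P) :
    P = BB (X ^ 2 : ℤ[X]) p ∨ P = -BB (X ^ 2 : ℤ[X]) p := by
  set B := BB (X ^ 2 : ℤ[X]) p with hB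
  have hY : (Y - 1 : ℂ[X][Y]) ≠ 0 := by rw [← C_1]; exact X_sub_C_ne_zero 1
  have h1 : (Y - 1) * toC P ∣ (Y - 1) * toC B := (hP.defining _).mp ((vanish hp _).mpr dvd_rfl)
  have h2 : (Y - 1) * toC B ∣ (Y - 1) * toC P := (vanish hp _).mp ((hP.defining _).mpr dvd_rfl)
  have h1' : toC P ∣ toC B := (mul_dvd_mul_iff_left hY).mp h1
  have h2' : toC B ∣ toC P := (mul_dvd_mul_iff_left hY).mp h2
  obtain ⟨u, hu⟩ := associated_of_dvd_dvd h2' h1'
  obtain ⟨v, hv, huv⟩ := Polynomial.isUnit_iff.mp u.isUnit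
  obtain ⟨c, hc, hcv⟩ := Polynomial.isUnit_iff.mp hv
  obtain ⟨j, hj⟩ := BB_coeff hp
  rw [← hB] at hj
  set n : ℤ := (P.coeff (degD p + 1)).coeff j with hn
  have hcoe : ∀ (Q : ℤ[X][Y]) (i k : ℕ), ((toC Q).coeff i).coeff k = (((Q.coeff i).coeff k : ℤ) : ℂ) := by
    intro Q i k
    simp [toC, coeff_map]
  have hcn : c = (n : ℂ) := by
    have e1 := hcoe P (degD p + 1) j
    rw [← hu, ← huv, ← hcv, mul_comm, coeff_C_mul, coeff_C_mul, hcoe B, hj] at e1
    simpa using e1
  have hPn : P = C (C n) * B := by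
    apply toC_injective
    rw [← hu, ← huv, ← hcv, hcn]
    simp only [toC, Polynomial.map_mul, map_C, coe_mapRingHom]
    rw [mul_comm]
    simp
  have hun : IsUnit n := hP.coprime n ⟨B, hPn⟩
  rcases Int.isUnit_iff.mp hun with h | h
  · left; rw [hPn, h]; simp
  · right; rw [hPn, h]; simp only [C_neg, C_1]; ring

theorem curve_genus {p : ℤ} (hp : p ≠ 0) {A : ℤ[X][Y]} (hA : Associated (toC A) (BC p)) :
    CurveHasGenus (toC A) (genusFormula p) := by
  have hdeg : ((degD p : ℕ) : ℤ) = genusFormula p := by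
    unfold degD genusFormula
    split_ifs with h
    · omega
    · rw [abs_of_nonpos (by omega)]
      omega
  obtain ⟨h1, h2⟩ := genus_fractionRing hp hA
  refine ⟨h1, ?_⟩
  rw [← hdeg, ← h2]
  rfl

/-- **The genus of the A-polynomial curve of the twist knot `K_p`.** -/
theorem result (p : ℤ) (hp : p ≠ 0) :
    (∃ P, IsAPolynomial p P ∧ ∀ P', IsAPolynomial p P' → P' = P ∨ P' = -P) ∧
    ∀ P, IsAPolynomial p P →
      ∃ A, P = squareM A ∧ Irreducible (toC A) ∧ CurveHasGenus (toC A) (genusFormula p) := by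
  refine ⟨⟨_, isAPolynomial_BB hp, fun P' hP' => eq_of_isAPolynomial hp hP'⟩, ?_⟩
  intro P hP
  have hex : squareM (BB (X : ℤ[X]) p) = BB (X ^ 2 : ℤ[X]) p := by
    unfold squareM
    rw [map_BB]
    congr 1
    simp
  have hBC : toC (BB (X : ℤ[X]) p) = BC p := by
    rw [toC_BB, map_X]
    rfl
  rcases eq_of_isAPolynomial hp hP with h | h
  · have hass : Associated (toC (BB (X : ℤ[X]) p)) (BC p) := by rw [hBC]
    exact ⟨BB (X : ℤ[X]) p, by rw [hex, h], hass.irreducible_iff.mpr (BC_irreducible hp),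
      curve_genus hp hass⟩
  · have hneg : toC (-BB (X : ℤ[X]) p) = -BC p := by
      rw [← hBC]; simp [toC]
    have hass : Associated (toC (-BB (X : ℤ[X]) p)) (BC p) := by
      rw [hneg]
      exact ⟨-1, by rw [Units.val_neg, Units.val_one, mul_neg, mul_one, neg_neg]⟩
    have hex' : squareM (-BB (X : ℤ[X]) p) = -BB (X ^ 2 : ℤ[X]) p := by
      rw [← hex]; simp [squareM]
    exact ⟨-BB (X : ℤ[X]) p, by rw [hex', h], hass.irreducible_iff.mpr (BC_irreducible hp),
      curve_genus hp hass⟩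

end Pool.H66.MV.TwistGenus
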